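import Mathlib
import Pool.Agent.TH623.SphereArea

/-!
# Stability of spherical clusters obeying Plateau's laws (MP_5bdae7_gt)

A cluster of two cells in `ℝ³` with three round interfaces which is not stable. The first cell is
the union of a ball `A` inside a ball `B` and a ball `A'` far away, the second cell is `B ∖ A`.
The radii satisfy the equilibrium condition `1/r(A') = 1/r(A) + 1/r(B)`. Moving volume from `A'`
to `A` has vanishing first variation and negative second variation of area.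
-/

namespace Pool.Agent.Results.MP_5bdae7_gt.VolumeExchange

open MeasureTheory Set Metric Topology
open scoped ENNReal NNReal

/-- Euclidean three-space. -/
abbrev E := EuclideanSpace ℝ (Fin 3)

/-- A cluster: a finite family of pairwise disjoint open sets of finite positive volume. -/
structure IsCluster {k : ℕ} (Ω : Fin k → Set E) : Prop where
  isOpen : ∀ i, IsOpen (Ω i)
  disjoint : ∀ i j, i ≠ j → Disjoint (Ω i) (Ω j)
  volume_pos : ∀ i, 0 < volume (Ω i)
  volume_lt_top : ∀ i, volume (Ω i) < ∞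

/-- The cells of the cluster, the last one being the unbounded complement of the closure. -/
noncomputable def cell {k : ℕ} (Ω : Fin k → Set E) : Fin (k + 1) → Set E :=
  Fin.snoc (α := fun _ => Set E) Ω (closure (⋃ i, Ω i))ᶜ

/-- The interface `∂Ω_i ∩ ∂Ω_j`. -/
noncomputable def interface {k : ℕ} (Ω : Fin k → Set E) (i j : Fin (k + 1)) : Set E :=
  frontier (cell Ω i) ∩ frontier (cell Ω j)

/-- Every interface is contained in a round sphere or a plane. -/
def SphericalInterfaces {k : ℕ} (Ω : Fin k → Set E) : Prop :=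
  ∀ i j, i ≠ j → (∃ (c : E) (ρ : ℝ), 0 < ρ ∧ interface Ω i j ⊆ sphere c ρ) ∨
    (∃ (n : E) (h : ℝ), n ≠ 0 ∧ interface Ω i j ⊆ {x | inner ℝ n x = h})

/-- The union of all interfaces. -/
noncomputable def skeleton {k : ℕ} (Ω : Fin k → Set E) : Set E :=
  {x | ∃ i j, i ≠ j ∧ x ∈ interface Ω i j}

/-- The plane. -/
def planeCone : Set E := {x | x 2 = 0}

/-- Three half-planes meeting at `120°` along a line. -/
def yCone : Set E :=
  {x | ∃ j : Fin 3, ∃ t : ℝ, 0 ≤ t ∧ x 0 = t * Real.cos (2 * Real.pi * j / 3) ∧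
    x 1 = t * Real.sin (2 * Real.pi * j / 3)}

/-- The vertices of a regular tetrahedron centred at the origin. -/
noncomputable def tetra : Fin 4 → E := ![!₂[1, 1, 1], !₂[1, -1, -1], !₂[-1, 1, -1], !₂[-1, -1, 1]]

/-- The cone over the edges of a regular tetrahedron: six planar sectors meeting along four rays
with angles `arccos(-1/3)`. -/
def tCone : Set E :=
  {x | ∃ i j : Fin 4, i ≠ j ∧ ∃ s t : ℝ, 0 ≤ s ∧ 0 ≤ t ∧ x = s • tetra i + t • tetra j}

/-- Near `p` the set `S` is the preimage of a plane, a `Y` cone or a `T` cone under a smooth map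
`Φ` with `Φ p = 0` whose derivative at `p` is a linear isometry (so `Φ` is a diffeomorphism near
`p`, and the angles at `p` are those of the model cone). -/
def PlateauAt (S : Set E) (p : E) : Prop :=
  ∃ Φ : E → E, ContDiffAt ℝ (⊤ : ℕ∞) Φ p ∧ Φ p = 0 ∧
    (∃ L : E ≃ₗᵢ[ℝ] E, HasFDerivAt Φ (L.toContinuousLinearEquiv : E →L[ℝ] E) p) ∧
    ∃ C : Set E, (C = planeCone ∨ C = yCone ∨ C = tCone) ∧ ∀ᶠ x in 𝓝 p, (x ∈ S ↔ Φ x ∈ C)

/-- The interfaces meet according to Plateau's laws. -/
def PlateauLaws {k : ℕ} (Ω : Fin k → Set E) : Prop :=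
  ∀ p ∈ skeleton Ω, PlateauAt (skeleton Ω) p

/-- The total area of the interfaces after applying the map `φ`. -/
noncomputable def area {k : ℕ} (Ω : Fin k → Set E) (φ : E → E) : ℝ≥0∞ :=
  ∑ i, ∑ j, if i < j then μH[2] (φ '' interface Ω i j) else 0

/-- A smooth one-parameter family `(Φ s)`, `|s| < ε`, of compactly supported diffeomorphisms of
`ℝ³` with `Φ 0 = id` that keeps the volume of each bounded cell fixed. -/
structure IsVolumePreservingDeformation {k : ℕ} (Ω : Fin k → Set E) (ε : ℝ)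
    (Φ : ℝ → E → E) : Prop where
  smooth : ContDiffOn ℝ (⊤ : ℕ∞) (fun p : ℝ × E => Φ p.1 p.2) (Ioo (-ε) ε ×ˢ univ)
  diffeo : ∀ s ∈ Ioo (-ε) ε, ∃ Ψ : E → E, ContDiff ℝ (⊤ : ℕ∞) Ψ ∧
    Function.LeftInverse Ψ (Φ s) ∧ Function.RightInverse Ψ (Φ s)
  compact : ∃ K : Set E, IsCompact K ∧ ∀ s ∈ Ioo (-ε) ε, ∀ x ∉ K, Φ s x = x
  zero : Φ 0 = id
  volume_eq : ∀ s ∈ Ioo (-ε) ε, ∀ i, volume (Φ s '' Ω i) = volume (Ω i)

/-- `a''` is the second variation of area along `Φ`, and `a'` the first one. -/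
def HasVariations {k : ℕ} (Ω : Fin k → Set E) (ε : ℝ) (Φ : ℝ → E → E) (a' a'' : ℝ) : Prop :=
  ∃ A' : ℝ → ℝ, (∀ s ∈ Ioo (-ε) ε, HasDerivAt (fun s => (area Ω (Φ s)).toReal) (A' s) s) ∧
    A' 0 = a' ∧ HasDerivAt A' a'' 0

/-- Stability: nonnegative second variation along every volume-preserving deformation. -/
def IsStable {k : ℕ} (Ω : Fin k → Set E) : Prop :=
  ∀ (ε : ℝ) (Φ : ℝ → E → E) (a' a'' : ℝ), 0 < ε → IsVolumePreservingDeformation Ω ε Φ →
    HasVariations Ω ε Φ a' a'' → 0 ≤ a''

/-! ### The example -/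

/-- The centre of the far ball. -/
noncomputable def c : E := EuclideanSpace.single 0 10

lemma norm_c : ‖c‖ = 10 := by simp [c]

/-- The cluster. -/
noncomputable def Om : Fin 2 → Set E :=
  ![ball 0 (3 / 2) ∪ ball c 1, ball 0 3 \ closedBall 0 (3 / 2)]

lemma far {x : E} {ρ : ℝ} (h : ‖x - c‖ ≤ ρ) : 10 - ρ ≤ ‖x‖ := by
  have h1 : ‖c‖ ≤ ‖x‖ + ‖x - c‖ := by
    have : c = x - (x - c) := by abel
    calc ‖c‖ = ‖x - (x - c)‖ := by rw [← this]
      _ ≤ ‖x‖ + ‖x - c‖ := norm_sub_le _ _
  rw [norm_c] at h1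
  linarith

/-- Membership in the frontier is local. -/
lemma mem_frontier_congr {s t : Set E} {x : E} (h : ∀ᶠ y in 𝓝 x, (y ∈ s ↔ y ∈ t)) :
    x ∈ frontier s ↔ x ∈ frontier t := by
  rw [frontier_eq_closure_inter_closure, frontier_eq_closure_inter_closure, mem_inter_iff,
    mem_inter_iff, mem_closure_iff_frequently, mem_closure_iff_frequently,
    mem_closure_iff_frequently, mem_closure_iff_frequently]
  have h1 : (∃ᶠ y in 𝓝 x, y ∈ s) ↔ ∃ᶠ y in 𝓝 x, y ∈ t := Filter.frequently_congr h
  have h2 : (∃ᶠ y in 𝓝 x, y ∈ sᶜ) ↔ ∃ᶠ y in 𝓝 x, y ∈ tᶜ :=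
    Filter.frequently_congr (h.mono fun y hy => not_congr hy)
  rw [h1, h2]

lemma ev_lt {x : E} {r : ℝ} (h : ‖x‖ < r) : ∀ᶠ y in 𝓝 x, ‖y‖ < r :=
  continuous_norm.continuousAt.eventually_lt continuousAt_const h

lemma ev_gt {x : E} {r : ℝ} (h : r < ‖x‖) : ∀ᶠ y in 𝓝 x, r < ‖y‖ :=
  continuousAt_const.eventually_lt continuous_norm.continuousAt h

lemma frontier_Om0 : frontier (Om 0) = sphere 0 (3 / 2) ∪ sphere c 1 := by
  ext x
  simp only [Om, Matrix.cons_val_zero]
  by_cases hx : ‖x‖ < 4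
  · have h1 : x ∈ frontier (ball 0 (3 / 2) ∪ ball c 1) ↔ x ∈ frontier (ball (0 : E) (3 / 2)) := by
      apply mem_frontier_congr
      filter_upwards [ev_lt hx] with y hy
      rw [mem_union]
      constructor
      · rintro (h | h)
        · exact h
        · rw [mem_ball_iff_norm] at h
          have := far h.le
          linarith
      · exact Or.inl
    rw [h1, frontier_ball _ (by norm_num)]
    constructor
    · exact Or.inl
    · rintro (h | h)
      · exact h
      · rw [mem_sphere_iff_norm] at h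
        have := far h.le
        linarith
  · have hx' : 2 < ‖x‖ := by push Not at hx; linarith
    have h1 : x ∈ frontier (ball 0 (3 / 2) ∪ ball c 1) ↔ x ∈ frontier (ball c 1) := by
      apply mem_frontier_congr
      filter_upwards [ev_gt hx'] with y hy
      rw [mem_union]
      constructor
      · rintro (h | h)
        · rw [mem_ball_zero_iff] at h
          linarith
        · exact h
      · exact Or.inr
    rw [h1, frontier_ball _ (by norm_num)]
    constructor
    · exact Or.inr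
    · rintro (h | h)
      · rw [mem_sphere_zero_iff_norm] at h
        linarith
      · exact h

lemma Om0_eq : Om 0 = ball 0 (3 / 2) ∪ ball c 1 := rfl

lemma Om1_eq : Om 1 = ball 0 3 \ closedBall 0 (3 / 2) := rfl

lemma frontier_Om1 : frontier (Om 1) = sphere 0 (3 / 2) ∪ sphere 0 3 := by
  ext x
  rw [Om1_eq]
  by_cases hx : ‖x‖ < 3
  · have h1 : x ∈ frontier (ball 0 3 \ closedBall 0 (3 / 2)) ↔
        x ∈ frontier (closedBall (0 : E) (3 / 2))ᶜ := by
      apply mem_frontier_congr
      filter_upwards [ev_lt hx] with y hy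
      rw [mem_sdiff, mem_ball_zero_iff, mem_compl_iff]
      exact ⟨fun h => h.2, fun h => ⟨hy, h⟩⟩
    rw [h1, frontier_compl, frontier_closedBall _ (by norm_num)]
    constructor
    · exact Or.inl
    · rintro (h | h)
      · exact h
      · rw [mem_sphere_zero_iff_norm] at h
        linarith
  · have hx' : 2 < ‖x‖ := by push Not at hx; linarith
    have h1 : x ∈ frontier (ball 0 3 \ closedBall 0 (3 / 2)) ↔ x ∈ frontier (ball (0 : E) 3) := by
      apply mem_frontier_congr
      filter_upwards [ev_gt hx'] with y hy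
      rw [mem_sdiff, mem_closedBall_zero_iff]
      exact ⟨fun h => h.1, fun h => ⟨h, by linarith⟩⟩
    rw [h1, frontier_ball _ (by norm_num)]
    constructor
    · exact Or.inr
    · rintro (h | h)
      · rw [mem_sphere_zero_iff_norm] at h
        linarith
      · exact h

lemma isOpen_Om (i : Fin 2) : IsOpen (Om i) := by
  fin_cases i
  · exact isOpen_ball.union isOpen_ball
  · exact isOpen_ball.sdiff isClosed_closedBall

lemma closure_iUnion : closure (⋃ i, Om i) = closedBall 0 3 ∪ closedBall c 1 := by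
  have h1 : (⋃ i, Om i) = Om 0 ∪ Om 1 := by
    ext x
    simp [Fin.exists_fin_two]
  rw [h1, closure_union, closure_eq_self_union_frontier, closure_eq_self_union_frontier,
    frontier_Om0, frontier_Om1, Om0_eq, Om1_eq]
  ext x
  simp only [mem_union, mem_ball_iff_norm, mem_sphere_iff_norm, mem_sdiff,
    mem_closedBall_iff_norm, sub_zero]
  constructor
  · rintro (((h | h) | (h | h)) | (h | (h | h)))
    · left; linarith
    · right; linarith
    · left; linarith
    · right; linarith
    · left; linarith [h.1]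
    · left; linarith
    · left; linarith
  · rintro (h | h)
    · rcases lt_trichotomy ‖x‖ (3 / 2) with h' | h' | h'
      · exact Or.inl (Or.inl (Or.inl h'))
      · exact Or.inl (Or.inr (Or.inl h'))
      · rcases h.lt_or_eq with h'' | h''
        · exact Or.inr (Or.inl ⟨h'', by linarith⟩)
        · exact Or.inr (Or.inr (Or.inr h''))
    · rcases h.lt_or_eq with h' | h'
      · exact Or.inl (Or.inl (Or.inr h'))
      · exact Or.inl (Or.inr (Or.inr h'))

lemma cell0 : cell Om 0 = Om 0 := rfl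
lemma cell1 : cell Om 1 = Om 1 := rfl
lemma cell2 : cell Om 2 = (closedBall 0 3 ∪ closedBall c 1)ᶜ := by
  rw [← closure_iUnion]
  rfl

lemma frontier_cell2 : frontier (cell Om 2) = sphere 0 3 ∪ sphere c 1 := by
  rw [cell2, frontier_compl]
  ext x
  by_cases hx : ‖x‖ < 5
  · have h1 : x ∈ frontier (closedBall 0 3 ∪ closedBall c 1) ↔
        x ∈ frontier (closedBall (0 : E) 3) := by
      apply mem_frontier_congr
      filter_upwards [ev_lt hx] with y hy
      rw [mem_union]
      constructor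
      · rintro (h | h)
        · exact h
        · rw [mem_closedBall_iff_norm] at h
          have := far h
          linarith
      · exact Or.inl
    rw [h1, frontier_closedBall _ (by norm_num)]
    constructor
    · exact Or.inl
    · rintro (h | h)
      · exact h
      · rw [mem_sphere_iff_norm] at h
        have := far h.le
        linarith
  · have hx' : 4 < ‖x‖ := by push Not at hx; linarith
    have h1 : x ∈ frontier (closedBall 0 3 ∪ closedBall c 1) ↔ x ∈ frontier (closedBall c 1) := by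
      apply mem_frontier_congr
      filter_upwards [ev_gt hx'] with y hy
      rw [mem_union]
      constructor
      · rintro (h | h)
        · rw [mem_closedBall_zero_iff] at h
          linarith
        · exact h
      · exact Or.inr
    rw [h1, frontier_closedBall _ (by norm_num)]
    constructor
    · exact Or.inr
    · rintro (h | h)
      · rw [mem_sphere_zero_iff_norm] at h
        linarith
      · exact h

lemma interface01 : interface Om 0 1 = sphere 0 (3 / 2) := by
  rw [interface, cell0, cell1, frontier_Om0, frontier_Om1]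
  ext x
  simp only [mem_inter_iff, mem_union, mem_sphere_iff_norm, sub_zero]
  constructor
  · rintro ⟨h1 | h1, h2 | h2⟩
    · exact h1
    · exact h1
    · exact h2
    · have := far h1.le
      linarith
  · intro h
    exact ⟨Or.inl h, Or.inl h⟩

lemma interface12 : interface Om 1 2 = sphere 0 3 := by
  rw [interface, cell1, frontier_cell2, frontier_Om1]
  ext x
  simp only [mem_inter_iff, mem_union, mem_sphere_iff_norm, sub_zero]
  constructor
  · rintro ⟨h1 | h1, h2 | h2⟩
    · exact h2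
    · have := far h2.le
      linarith
    · exact h1
    · exact h1
  · intro h
    exact ⟨Or.inr h, Or.inl h⟩

lemma interface02 : interface Om 0 2 = sphere c 1 := by
  rw [interface, cell0, frontier_cell2, frontier_Om0]
  ext x
  simp only [mem_inter_iff, mem_union, mem_sphere_iff_norm, sub_zero]
  constructor
  · rintro ⟨h1 | h1, h2 | h2⟩
    · linarith
    · exact h2
    · exact h1
    · exact h1
  · intro h
    exact ⟨Or.inr h, Or.inr h⟩

lemma interface_comm {k : ℕ} (Ω : Fin k → Set E) (i j : Fin (k + 1)) :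
    interface Ω i j = interface Ω j i := inter_comm _ _

lemma spherical : SphericalInterfaces Om := by
  intro i j hij
  left
  fin_cases i <;> fin_cases j
  · exact absurd rfl hij
  · exact ⟨0, 3 / 2, by norm_num, interface01.le⟩
  · exact ⟨c, 1, by norm_num, interface02.le⟩
  · exact ⟨0, 3 / 2, by norm_num, (interface_comm Om 1 0).trans_subset interface01.le⟩
  · exact absurd rfl hij
  · exact ⟨0, 3, by norm_num, interface12.le⟩
  · exact ⟨c, 1, by norm_num, (interface_comm Om 2 0).trans_subset interface02.le⟩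
  · exact ⟨0, 3, by norm_num, (interface_comm Om 2 1).trans_subset interface12.le⟩
  · exact absurd rfl hij

lemma skeleton_eq : skeleton Om = sphere 0 (3 / 2) ∪ sphere 0 3 ∪ sphere c 1 := by
  ext x
  constructor
  · rintro ⟨i, j, hij, hx⟩
    fin_cases i <;> fin_cases j
    · exact absurd rfl hij
    · exact Or.inl (Or.inl (interface01 ▸ hx))
    · exact Or.inr (interface02 ▸ hx)
    · exact Or.inl (Or.inl (interface01 ▸ (interface_comm Om 1 0) ▸ hx))
    · exact absurd rfl hij
    · exact Or.inl (Or.inr (interface12 ▸ hx))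
    · exact Or.inr (interface02 ▸ (interface_comm Om 2 0) ▸ hx)
    · exact Or.inl (Or.inr (interface12 ▸ (interface_comm Om 2 1) ▸ hx))
    · exact absurd rfl hij
  · rintro ((h | h) | h)
    · exact ⟨0, 1, by decide, interface01.symm ▸ h⟩
    · exact ⟨1, 2, by decide, interface12.symm ▸ h⟩
    · exact ⟨0, 2, by decide, interface02.symm ▸ h⟩

/-- A set that is a round sphere near `p` is of plane type at `p`. -/
lemma plateauAt_of_sphere {S : Set E} {a p : E} {ρ : ℝ} (hρ : 0 < ρ) (hp : ‖p - a‖ = ρ)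
    (h : ∀ᶠ x in 𝓝 p, (x ∈ S ↔ ‖x - a‖ = ρ)) : PlateauAt S p := by
  let e : E := EuclideanSpace.single 2 1
  have he : ‖e‖ = 1 := by simp [e]
  let n : E := ρ⁻¹ • (p - a)
  have hn : ‖n‖ = 1 := by
    simp only [n, norm_smul, norm_inv, Real.norm_eq_abs, abs_of_pos hρ, hp]
    field_simp
  let L : E ≃ₗᵢ[ℝ] E := (Submodule.reflection (ℝ ∙ (n - e))ᗮ)
  have hLn : L n = e := Submodule.reflection_sub (hn.trans he.symm)
  have hL2 : ∀ v, (L v) 2 = inner ℝ n v := by
    intro v
    have h1 : inner ℝ n v = inner ℝ (L n) (L v) := (L.inner_map_map n v).symm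
    rw [h1, hLn]
    simp [e, EuclideanSpace.inner_single_left]
  let Φ : E → E := fun x => L (x - p) + (‖x - p‖ ^ 2 / (2 * ρ)) • e
  have hΦ2 : ∀ x, (Φ x) 2 = (‖x - a‖ ^ 2 - ρ ^ 2) / (2 * ρ) := by
    intro x
    have h1 : (Φ x) 2 = (L (x - p)) 2 + ‖x - p‖ ^ 2 / (2 * ρ) := by
      simp [Φ, e]
    rw [h1, hL2]
    have h2 : x - a = (x - p) + (p - a) := by abel
    have h3 : ‖x - a‖ ^ 2 = ‖x - p‖ ^ 2 + 2 * inner ℝ (x - p) (p - a) + ρ ^ 2 := by
      rw [h2, norm_add_sq_real, hp]
    have h4 : inner ℝ n (x - p) = ρ⁻¹ * inner ℝ (x - p) (p - a) := by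
      simp only [n, real_inner_smul_left]
      rw [real_inner_comm]
    rw [h3, h4]
    field_simp
    ring
  refine ⟨Φ, ?_, ?_, ⟨L, ?_⟩, planeCone, Or.inl rfl, ?_⟩
  · apply ContDiff.contDiffAt
    have hd : ContDiff ℝ (⊤ : ℕ∞) fun x : E => x - p := contDiff_id.sub contDiff_const
    exact (L.contDiff.comp hd).add (((hd.norm_sq ℝ).div_const _).smul contDiff_const)
  · simp [Φ]
  · have h1 : HasFDerivAt (fun x : E => x - p) (ContinuousLinearMap.id ℝ E) p :=
      (hasFDerivAt_id p).sub_const p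
    have h2 : HasFDerivAt (fun x : E => L (x - p)) (L.toContinuousLinearEquiv : E →L[ℝ] E) p := by
      have := (L.toContinuousLinearEquiv : E →L[ℝ] E).hasFDerivAt (x := (fun x : E => x - p) p)
      have h3 := HasFDerivAt.comp (f := fun x : E => x - p)
        (g := fun x : E => (L.toContinuousLinearEquiv : E →L[ℝ] E) x) p this h1
      rw [ContinuousLinearMap.comp_id] at h3
      exact h3
    have h4 : HasFDerivAt (fun x : E => (‖x - p‖ ^ 2 / (2 * ρ)) • e) (0 : E →L[ℝ] E) p := by
      have h5 : HasFDerivAt (fun x : E => ‖x - p‖ ^ 2) (0 : E →L[ℝ] ℝ) p := by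
        have h6 := h1.norm_sq
        simpa using h6
      have h7 : HasFDerivAt (fun x : E => ‖x - p‖ ^ 2 / (2 * ρ)) (0 : E →L[ℝ] ℝ) p := by
        have := h5.mul_const ((2 * ρ)⁻¹)
        simpa [div_eq_mul_inv] using this
      have h8 := h7.smul_const e
      simpa using h8
    have h9 := h2.add h4
    rw [add_zero] at h9
    exact h9
  · filter_upwards [h] with x hx
    rw [hx]
    show ‖x - a‖ = ρ ↔ (Φ x) 2 = 0
    rw [hΦ2, div_eq_zero_iff]
    constructor
    · intro h
      left
      rw [h, sub_self]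
    · rintro (h | h)
      · have : ‖x - a‖ ^ 2 = ρ ^ 2 := by linarith
        exact (sq_eq_sq₀ (norm_nonneg _) hρ.le).mp this
      · linarith

lemma plateau : PlateauLaws Om := by
  intro p hp
  rw [skeleton_eq] at hp ⊢
  rcases hp with (hp | hp) | hp
  · rw [mem_sphere_iff_norm] at hp
    refine plateauAt_of_sphere (a := 0) (by norm_num) hp ?_
    have h1 : ‖p‖ < 2 := by rw [sub_zero] at hp; linarith
    filter_upwards [ev_lt h1] with x hx
    simp only [mem_union, mem_sphere_iff_norm, sub_zero]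
    constructor
    · rintro ((h | h) | h)
      · exact h
      · linarith
      · have := far h.le
        linarith
    · intro h
      exact Or.inl (Or.inl h)
  · rw [mem_sphere_iff_norm] at hp
    refine plateauAt_of_sphere (a := 0) (by norm_num) hp ?_
    rw [sub_zero] at hp
    filter_upwards [ev_lt (show ‖p‖ < 4 by linarith), ev_gt (show 2 < ‖p‖ by linarith)] with x hx hx'
    simp only [mem_union, mem_sphere_iff_norm, sub_zero]
    constructor
    · rintro ((h | h) | h)
      · linarith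
      · exact h
      · have := far h.le
        linarith
    · intro h
      exact Or.inl (Or.inr h)
  · rw [mem_sphere_iff_norm] at hp
    refine plateauAt_of_sphere (a := c) (by norm_num) hp ?_
    have h1 := far hp.le
    filter_upwards [ev_gt (show 4 < ‖p‖ by linarith)] with x hx
    simp only [mem_union, mem_sphere_iff_norm, sub_zero]
    constructor
    · rintro ((h | h) | h)
      · linarith
      · linarith
      · exact h
    · intro h
      exact Or.inr h

/-! ### The deformation -/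

/-- The scaling factor with cube `1 + a s`. -/
noncomputable def lam (a s : ℝ) : ℝ := (1 + a * s) ^ (1 / 3 : ℝ)

lemma lam_zero (a : ℝ) : lam a 0 = 1 := by simp [lam]

lemma lam_pos {a s : ℝ} (h : 0 < 1 + a * s) : 0 < lam a s := Real.rpow_pos_of_pos h _

lemma lam_cube {a s : ℝ} (h : 0 < 1 + a * s) : lam a s ^ 3 = 1 + a * s := by
  rw [lam, ← Real.rpow_natCast, ← Real.rpow_mul h.le]
  norm_num

lemma lam_sq {a s : ℝ} (h : 0 < 1 + a * s) : lam a s ^ 2 = (1 + a * s) ^ (2 / 3 : ℝ) := by
  rw [lam, ← Real.rpow_natCast, ← Real.rpow_mul h.le]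
  norm_num

lemma lam_continuousAt (a : ℝ) : ContinuousAt (lam a) 0 := by
  unfold lam
  refine ContinuousAt.rpow_const (by fun_prop) (Or.inl (by simp))

/-- Cutoff functions. -/
noncomputable def β1 : ContDiffBump (0 : E) := ⟨8 / 5, 2, by norm_num, by norm_num⟩
noncomputable def β2 : ContDiffBump (0 : E) := ⟨16 / 5, 4, by norm_num, by norm_num⟩
noncomputable def β3 : ContDiffBump c := ⟨3 / 2, 3, by norm_num, by norm_num⟩

noncomputable def G1 (x : E) : E := β1 x • x
noncomputable def G2 (x : E) : E := β2 x • x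
noncomputable def G3 (x : E) : E := β3 x • (x - c)

/-- The perturbation. -/
noncomputable def pert (s : ℝ) (x : E) : E :=
  (lam (8 / 27) s - lam (1 / 27) s) • G1 x + (lam (1 / 27) s - 1) • G2 x +
    (lam (-1) s - 1) • G3 x

/-- The deformation. -/
noncomputable def Def (s : ℝ) (x : E) : E := x + pert s x

lemma G1_contDiff : ContDiff ℝ (⊤ : ℕ∞) G1 := β1.contDiff.smul contDiff_id
lemma G2_contDiff : ContDiff ℝ (⊤ : ℕ∞) G2 := β2.contDiff.smul contDiff_id
lemma G3_contDiff : ContDiff ℝ (⊤ : ℕ∞) G3 := β3.contDiff.smul (contDiff_id.sub contDiff_const)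

lemma G1_supp : HasCompactSupport G1 := β1.hasCompactSupport.smul_right
lemma G2_supp : HasCompactSupport G2 := β2.hasCompactSupport.smul_right
lemma G3_supp : HasCompactSupport G3 := β3.hasCompactSupport.smul_right

/-- A common bound for the fields and their Lipschitz constants. -/
lemma exists_bound : ∃ M : ℝ≥0, 1 ≤ M ∧ (LipschitzWith M G1 ∧ LipschitzWith M G2 ∧
    LipschitzWith M G3) ∧ (∀ x, ‖G1 x‖ ≤ M) ∧ (∀ x, ‖G2 x‖ ≤ M) ∧ ∀ x, ‖G3 x‖ ≤ M := by
  obtain ⟨L1, h1⟩ := G1_contDiff.lipschitzWith_of_hasCompactSupport G1_supp (by simp)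
  obtain ⟨L2, h2⟩ := G2_contDiff.lipschitzWith_of_hasCompactSupport G2_supp (by simp)
  obtain ⟨L3, h3⟩ := G3_contDiff.lipschitzWith_of_hasCompactSupport G3_supp (by simp)
  obtain ⟨C1, b1⟩ := G1_supp.exists_bound_of_continuous G1_contDiff.continuous
  obtain ⟨C2, b2⟩ := G2_supp.exists_bound_of_continuous G2_contDiff.continuous
  obtain ⟨C3, b3⟩ := G3_supp.exists_bound_of_continuous G3_contDiff.continuous
  have hC : ∀ C : ℝ, C ≤ C.toNNReal := Real.le_coe_toNNReal
  refine ⟨1 + L1 + L2 + L3 + C1.toNNReal + C2.toNNReal + C3.toNNReal, ?_,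
    ⟨h1.weaken ?_, h2.weaken ?_, h3.weaken ?_⟩, fun x => ?_, fun x => ?_, fun x => ?_⟩
  · rw [← NNReal.coe_le_coe]; push_cast; linarith [L1.2, L2.2, L3.2, C1.toNNReal.2, C2.toNNReal.2, C3.toNNReal.2]
  · rw [← NNReal.coe_le_coe]; push_cast; linarith [L1.2, L2.2, L3.2, C1.toNNReal.2, C2.toNNReal.2, C3.toNNReal.2]
  · rw [← NNReal.coe_le_coe]; push_cast; linarith [L1.2, L2.2, L3.2, C1.toNNReal.2, C2.toNNReal.2, C3.toNNReal.2]
  · rw [← NNReal.coe_le_coe]; push_cast; linarith [L1.2, L2.2, L3.2, C1.toNNReal.2, C2.toNNReal.2, C3.toNNReal.2]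
  · refine (b1 x).trans ((hC C1).trans ?_)
    push_cast; linarith [L1.2, L2.2, L3.2, C1.toNNReal.2, C2.toNNReal.2, C3.toNNReal.2]
  · refine (b2 x).trans ((hC C2).trans ?_)
    push_cast; linarith [L1.2, L2.2, L3.2, C1.toNNReal.2, C2.toNNReal.2, C3.toNNReal.2]
  · refine (b3 x).trans ((hC C3).trans ?_)
    push_cast; linarith [L1.2, L2.2, L3.2, C1.toNNReal.2, C2.toNNReal.2, C3.toNNReal.2]

/-- The parameter is small. -/
structure Small (s : ℝ) : Prop where
  abs_lt : |s| < 1 / 2
  lip : ∀ x y, ‖pert s x - pert s y‖ ≤ (1 / 100) * ‖x - y‖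
  bd : ∀ x, ‖pert s x‖ ≤ 1 / 100
  lamA : |lam (8 / 27) s - 1| ≤ 1 / 100
  lamB : |lam (1 / 27) s - 1| ≤ 1 / 100
  lamC : |lam (-1) s - 1| ≤ 1 / 100

lemma exists_small : ∃ ε : ℝ, 0 < ε ∧ ∀ s ∈ Ioo (-ε) ε, Small s := by
  obtain ⟨M, hM1, ⟨l1, l2, l3⟩, b1, b2, b3⟩ := exists_bound
  have hM1' : (1 : ℝ) ≤ M := by exact_mod_cast hM1
  let δ : ℝ → ℝ := fun s => |lam (8 / 27) s - lam (1 / 27) s| + |lam (1 / 27) s - 1| +
    |lam (-1) s - 1|
  have hδ : ContinuousAt δ 0 :=
    (((lam_continuousAt _).sub (lam_continuousAt _)).abs.add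
      ((lam_continuousAt _).sub continuousAt_const).abs).add
      ((lam_continuousAt _).sub continuousAt_const).abs
  have hδ0 : δ 0 = 0 := by simp [δ, lam_zero]
  have hev : ∀ᶠ s in 𝓝 (0 : ℝ), δ s * M < 1 / 100 ∧ |s| < 1 / 2 := by
    have h1 : ∀ᶠ s in 𝓝 (0 : ℝ), δ s * M < 1 / 100 := by
      have hc : ContinuousAt (fun s => δ s * M) 0 := hδ.mul continuousAt_const
      exact hc.eventually_lt continuousAt_const (by simp only [hδ0]; norm_num)
    have h2 : ∀ᶠ s in 𝓝 (0 : ℝ), |s| < 1 / 2 :=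
      continuous_abs.continuousAt.eventually_lt continuousAt_const (by simp)
    exact h1.and h2
  obtain ⟨ε, hε, h⟩ := Metric.eventually_nhds_iff.mp hev
  refine ⟨ε, hε, fun s hs => ?_⟩
  have hs' : dist s 0 < ε := by
    rw [Real.dist_eq, sub_zero, abs_lt]; exact hs
  obtain ⟨h1, h2⟩ := h hs'
  have p1 : 0 ≤ |lam (8 / 27) s - lam (1 / 27) s| := abs_nonneg _
  have p2 : 0 ≤ |lam (1 / 27) s - 1| := abs_nonneg _
  have p3 : 0 ≤ |lam (-1) s - 1| := abs_nonneg _
  have hδ1 : δ s ≤ 1 / 100 := by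
    have : δ s ≤ δ s * M := le_mul_of_one_le_right (by positivity) hM1'
    linarith
  refine ⟨h2, fun x y => ?_, fun x => ?_, ?_, ?_, ?_⟩
  · have e1 : pert s x - pert s y = (lam (8 / 27) s - lam (1 / 27) s) • (G1 x - G1 y) +
        (lam (1 / 27) s - 1) • (G2 x - G2 y) + (lam (-1) s - 1) • (G3 x - G3 y) := by
      simp only [pert, smul_sub]; abel
    have q1 : ‖G1 x - G1 y‖ ≤ M * ‖x - y‖ := by
      have := l1.dist_le_mul x y; rwa [dist_eq_norm, dist_eq_norm] at this
    have q2 : ‖G2 x - G2 y‖ ≤ M * ‖x - y‖ := by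
      have := l2.dist_le_mul x y; rwa [dist_eq_norm, dist_eq_norm] at this
    have q3 : ‖G3 x - G3 y‖ ≤ M * ‖x - y‖ := by
      have := l3.dist_le_mul x y; rwa [dist_eq_norm, dist_eq_norm] at this
    rw [e1]
    calc _ ≤ ‖(lam (8 / 27) s - lam (1 / 27) s) • (G1 x - G1 y)‖ +
          ‖(lam (1 / 27) s - 1) • (G2 x - G2 y)‖ + ‖(lam (-1) s - 1) • (G3 x - G3 y)‖ :=
          norm_add₃_le
      _ ≤ |lam (8 / 27) s - lam (1 / 27) s| * (M * ‖x - y‖) + |lam (1 / 27) s - 1| * (M * ‖x - y‖)
          + |lam (-1) s - 1| * (M * ‖x - y‖) := by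
          rw [norm_smul, norm_smul, norm_smul]
          simp only [Real.norm_eq_abs]
          gcongr
      _ = (δ s * M) * ‖x - y‖ := by simp only [δ]; ring
      _ ≤ (1 / 100) * ‖x - y‖ := by gcongr
  · calc ‖pert s x‖ ≤ ‖(lam (8 / 27) s - lam (1 / 27) s) • G1 x‖ +
          ‖(lam (1 / 27) s - 1) • G2 x‖ + ‖(lam (-1) s - 1) • G3 x‖ := norm_add₃_le
      _ ≤ |lam (8 / 27) s - lam (1 / 27) s| * M + |lam (1 / 27) s - 1| * M
          + |lam (-1) s - 1| * M := by
          rw [norm_smul, norm_smul, norm_smul]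
          simp only [Real.norm_eq_abs]
          gcongr
          · exact b1 x
          · exact b2 x
          · exact b3 x
      _ = δ s * M := by simp only [δ]; ring
      _ ≤ 1 / 100 := h1.le
  · have : lam (8 / 27) s - 1 = (lam (8 / 27) s - lam (1 / 27) s) + (lam (1 / 27) s - 1) := by ring
    rw [this]
    refine (abs_add_le _ _).trans ?_
    simp only [δ] at hδ1
    linarith
  · simp only [δ] at hδ1; linarith
  · simp only [δ] at hδ1; linarith

lemma beta1_one {x : E} (h : ‖x‖ ≤ 8 / 5) : β1 x = 1 :=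
  β1.one_of_mem_closedBall (by rw [mem_closedBall_zero_iff]; exact h)
lemma beta1_zero {x : E} (h : 2 ≤ ‖x‖) : β1 x = 0 :=
  β1.zero_of_le_dist (by rw [dist_zero_right]; exact h)
lemma beta2_one {x : E} (h : ‖x‖ ≤ 16 / 5) : β2 x = 1 :=
  β2.one_of_mem_closedBall (by rw [mem_closedBall_zero_iff]; exact h)
lemma beta2_zero {x : E} (h : 4 ≤ ‖x‖) : β2 x = 0 :=
  β2.zero_of_le_dist (by rw [dist_zero_right]; exact h)
lemma beta3_one {x : E} (h : ‖x - c‖ ≤ 3 / 2) : β3 x = 1 :=
  β3.one_of_mem_closedBall (by rw [mem_closedBall_iff_norm]; exact h)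
lemma beta3_zero {x : E} (h : 3 ≤ ‖x - c‖) : β3 x = 0 :=
  β3.zero_of_le_dist (by rw [dist_eq_norm]; exact h)
lemma beta3_zero' {x : E} (h : ‖x‖ ≤ 4) : β3 x = 0 := by
  apply beta3_zero
  by_contra hcon
  push Not at hcon
  have := far hcon.le
  linarith

lemma Def_A (s : ℝ) {x : E} (h : ‖x‖ ≤ 8 / 5) : Def s x = lam (8 / 27) s • x := by
  simp only [Def, pert, G1, G2, G3, beta1_one h, beta2_one (h.trans (by norm_num)),
    beta3_zero' (h.trans (by norm_num)), one_smul, zero_smul, smul_zero, add_zero, sub_smul]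
  abel

lemma Def_B (s : ℝ) {x : E} (h : 2 ≤ ‖x‖) (h' : ‖x‖ ≤ 16 / 5) :
    Def s x = lam (1 / 27) s • x := by
  simp only [Def, pert, G1, G2, G3, beta1_zero h, beta2_one h',
    beta3_zero' (h'.trans (by norm_num)), one_smul, zero_smul, smul_zero, add_zero, zero_add,
    sub_smul]
  abel

lemma Def_C (s : ℝ) {x : E} (h : ‖x - c‖ ≤ 3 / 2) : Def s x = c + lam (-1) s • (x - c) := by
  have h1 := far h
  simp only [Def, pert, G1, G2, G3, beta1_zero (show 2 ≤ ‖x‖ by linarith),
    beta2_zero (show 4 ≤ ‖x‖ by linarith), beta3_one h, one_smul, zero_smul, smul_zero, zero_add,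
    sub_smul]
  abel

lemma Def_out (s : ℝ) {x : E} (h : 4 ≤ ‖x‖) (h' : 3 ≤ ‖x - c‖) : Def s x = x := by
  simp only [Def, pert, G1, G2, G3, beta1_zero (show 2 ≤ ‖x‖ by linarith), beta2_zero h,
    beta3_zero h', zero_smul, smul_zero, add_zero]

lemma Def_zero : Def 0 = id := by
  funext x
  simp [Def, pert, lam_zero]

/-- The deformation is a homeomorphism for small parameters. -/
lemma exists_homeo {s : ℝ} (hs : Small s) : ∃ H : E ≃ₜ E, ∀ x, H x = Def s x := by
  have happ : ApproximatesLinearOn (Def s)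
      ((ContinuousLinearEquiv.refl ℝ E : E ≃L[ℝ] E) : E →L[ℝ] E) univ (1 / 100 : ℝ≥0) := by
    intro x _ y _
    have e1 : Def s x - Def s y - (ContinuousLinearEquiv.refl ℝ E : E →L[ℝ] E) (x - y) =
        pert s x - pert s y := by
      simp only [Def, ContinuousLinearEquiv.coe_refl, ContinuousLinearMap.id_apply]
      abel
    rw [e1]
    have := hs.lip x y
    push_cast
    exact this
  have hN : Subsingleton E ∨ (1 / 100 : ℝ≥0) <
      ‖((ContinuousLinearEquiv.refl ℝ E).symm : E →L[ℝ] E)‖₊⁻¹ := by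
    right
    have : ‖((ContinuousLinearEquiv.refl ℝ E).symm : E →L[ℝ] E)‖₊ = 1 := by
      rw [ContinuousLinearEquiv.refl_symm, ContinuousLinearEquiv.coe_refl]
      exact ContinuousLinearMap.nnnorm_id
    rw [this, inv_one]
    rw [← NNReal.coe_lt_coe]; norm_num
  exact ⟨happ.toHomeomorph _ hN, fun x => rfl⟩


lemma pert_contDiff (s : ℝ) : ContDiff ℝ (⊤ : ℕ∞) (pert s) :=
  ((G1_contDiff.const_smul _).add (G2_contDiff.const_smul _)).add (G3_contDiff.const_smul _)

lemma Def_contDiff (s : ℝ) : ContDiff ℝ (⊤ : ℕ∞) (Def s) := contDiff_id.add (pert_contDiff s)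

/-- The deformation is a diffeomorphism for small parameters. -/
lemma exists_inverse {s : ℝ} (hs : Small s) : ∃ Ψ : E → E, ContDiff ℝ (⊤ : ℕ∞) Ψ ∧
    Function.LeftInverse Ψ (Def s) ∧ Function.RightInverse Ψ (Def s) := by
  obtain ⟨H, hH⟩ := exists_homeo hs
  have hHf : (H : E → E) = Def s := funext hH
  have hder : ∀ a, ∃ D : E ≃L[ℝ] E, HasFDerivAt H (D : E →L[ℝ] E) a := by
    intro a
    have h1 : HasFDerivAt (pert s) (fderiv ℝ (pert s) a) a :=
      ((pert_contDiff s).differentiable (by simp) a).hasFDerivAt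
    have h2 : ‖fderiv ℝ (pert s) a‖ ≤ 1 / 100 := by
      have hl : LipschitzWith (1 / 100) (pert s) := by
        refine LipschitzWith.of_dist_le_mul fun x y => ?_
        rw [dist_eq_norm, dist_eq_norm]
        have := hs.lip x y
        push_cast
        exact this
      have := norm_fderiv_le_of_lipschitz ℝ hl (x₀ := a)
      push_cast at this
      exact this
    have h3 : ‖-fderiv ℝ (pert s) a‖ < 1 := by
      rw [norm_neg]; linarith
    let u : (E →L[ℝ] E)ˣ := Units.oneSub (-fderiv ℝ (pert s) a) h3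
    refine ⟨ContinuousLinearEquiv.unitsEquiv ℝ E u, ?_⟩
    have h4 : ((ContinuousLinearEquiv.unitsEquiv ℝ E u : E ≃L[ℝ] E) : E →L[ℝ] E) =
        ContinuousLinearMap.id ℝ E + fderiv ℝ (pert s) a := by
      ext x
      rw [ContinuousLinearEquiv.coe_coe, ContinuousLinearEquiv.unitsEquiv_apply]
      simp [u]
    rw [h4, hHf]
    exact (hasFDerivAt_id a).add h1
  choose D hD using hder
  refine ⟨H.symm, H.contDiff_symm hD (by rw [hHf]; exact Def_contDiff s), ?_, ?_⟩
  · intro x
    rw [← hH]; exact H.symm_apply_apply x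
  · intro x
    rw [← hH]; exact H.apply_symm_apply x

/-- Images of radial sets under a map that is a homothety there. -/
lemma image_scaling {φ : E → E} {a : E} {l : ℝ} (hl : 0 < l) (J : Set ℝ)
    (h : ∀ x, ‖x - a‖ ∈ J → φ x = a + l • (x - a)) :
    φ '' {x | ‖x - a‖ ∈ J} = {y | l⁻¹ * ‖y - a‖ ∈ J} := by
  ext y
  constructor
  · rintro ⟨x, hx, rfl⟩
    rw [mem_ofPred_eq, h x hx, add_sub_cancel_left, norm_smul, Real.norm_eq_abs, abs_of_pos hl,
      inv_mul_cancel_left₀ hl.ne']
    exact hx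
  · intro hy
    have h1 : ‖(a + l⁻¹ • (y - a)) - a‖ = l⁻¹ * ‖y - a‖ := by
      rw [add_sub_cancel_left, norm_smul, Real.norm_eq_abs, abs_of_pos (inv_pos.mpr hl)]
    have h2 : ‖(a + l⁻¹ • (y - a)) - a‖ ∈ J := by rw [h1]; exact hy
    refine ⟨a + l⁻¹ • (y - a), h2, ?_⟩
    rw [h _ h2, add_sub_cancel_left, smul_inv_smul₀ hl.ne']
    abel

lemma image_ball {φ : E → E} {a : E} {l r : ℝ} (hl : 0 < l)
    (h : ∀ x, ‖x - a‖ < r → φ x = a + l • (x - a)) : φ '' ball a r = ball a (r * l) := by
  have h1 := image_scaling hl (Iio r) h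
  have e1 : ball a r = {x | ‖x - a‖ ∈ Iio r} := by
    ext x; rw [mem_ball_iff_norm]; rfl
  have e2 : ball a (r * l) = {y | l⁻¹ * ‖y - a‖ ∈ Iio r} := by
    ext x; rw [mem_ball_iff_norm, mem_ofPred_eq, mem_Iio, inv_mul_lt_iff₀ hl, mul_comm r l]
  rw [e1, h1, e2]

lemma image_closedBall {φ : E → E} {a : E} {l r : ℝ} (hl : 0 < l)
    (h : ∀ x, ‖x - a‖ ≤ r → φ x = a + l • (x - a)) :
    φ '' closedBall a r = closedBall a (r * l) := by
  have h1 := image_scaling hl (Iic r) h
  have e1 : closedBall a r = {x | ‖x - a‖ ∈ Iic r} := by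
    ext x; rw [mem_closedBall_iff_norm]; rfl
  have e2 : closedBall a (r * l) = {y | l⁻¹ * ‖y - a‖ ∈ Iic r} := by
    ext x; rw [mem_closedBall_iff_norm, mem_ofPred_eq, mem_Iic, inv_mul_le_iff₀ hl, mul_comm r l]
  rw [e1, h1, e2]

lemma image_sphere {φ : E → E} {a : E} {l r : ℝ} (hl : 0 < l)
    (h : ∀ x, ‖x - a‖ = r → φ x = a + l • (x - a)) : φ '' sphere a r = sphere a (r * l) := by
  have h1 := image_scaling hl {r} h
  have e1 : sphere a r = {x | ‖x - a‖ ∈ ({r} : Set ℝ)} := by
    ext x; rw [mem_sphere_iff_norm]; rfl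
  have e2 : sphere a (r * l) = {y | l⁻¹ * ‖y - a‖ ∈ ({r} : Set ℝ)} := by
    ext x
    rw [mem_sphere_iff_norm, mem_ofPred_eq, mem_singleton_iff, inv_mul_eq_iff_eq_mul₀ hl.ne',
      mul_comm r l]
  rw [e1, h1, e2]

section Images

variable {s : ℝ} (hs : Small s)
include hs

lemma posA : 0 < 1 + (8 / 27) * s := by have := abs_lt.mp hs.abs_lt; linarith [this.1, this.2]
lemma posB : 0 < 1 + (1 / 27) * s := by have := abs_lt.mp hs.abs_lt; linarith [this.1, this.2]
lemma posC : 0 < 1 + (-1) * s := by have := abs_lt.mp hs.abs_lt; linarith [this.1, this.2]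

lemma im_sphereA : Def s '' sphere 0 (3 / 2) = sphere 0 (3 / 2 * lam (8 / 27) s) :=
  image_sphere (lam_pos (posA hs)) fun x hx => by
    rw [sub_zero] at hx
    rw [Def_A s (by rw [hx]; norm_num), sub_zero, zero_add]

lemma im_ballA : Def s '' ball 0 (3 / 2) = ball 0 (3 / 2 * lam (8 / 27) s) :=
  image_ball (lam_pos (posA hs)) fun x hx => by
    rw [sub_zero] at hx
    rw [Def_A s (by linarith), sub_zero, zero_add]

lemma im_closedBallA : Def s '' closedBall 0 (3 / 2) = closedBall 0 (3 / 2 * lam (8 / 27) s) :=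
  image_closedBall (lam_pos (posA hs)) fun x hx => by
    rw [sub_zero] at hx
    rw [Def_A s (by linarith), sub_zero, zero_add]

lemma im_sphereC : Def s '' sphere c 1 = sphere c (1 * lam (-1) s) :=
  image_sphere (lam_pos (posC hs)) fun x hx => Def_C s (by rw [hx]; norm_num)

lemma im_ballC : Def s '' ball c 1 = ball c (1 * lam (-1) s) :=
  image_ball (lam_pos (posC hs)) fun x hx => Def_C s (by linarith)

lemma im_sphereB : Def s '' sphere 0 3 = sphere 0 (3 * lam (1 / 27) s) :=
  image_sphere (lam_pos (posB hs)) fun x hx => by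
    rw [sub_zero] at hx
    rw [Def_B s (by rw [hx]; norm_num) (by rw [hx]; norm_num), sub_zero, zero_add]

lemma im_ballB : Def s '' ball 0 3 = ball 0 (3 * lam (1 / 27) s) := by
  have hB := abs_le.mp hs.lamB
  have hpos := lam_pos (posB hs)
  obtain ⟨H, hH⟩ := exists_homeo hs
  ext y
  rw [mem_ball_zero_iff]
  constructor
  · rintro ⟨x, hx, rfl⟩
    rw [mem_ball_zero_iff] at hx
    by_cases h2 : 2 ≤ ‖x‖
    · rw [Def_B s h2 (by linarith), norm_smul, Real.norm_eq_abs, abs_of_pos hpos, mul_comm]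
      exact mul_lt_mul_of_pos_right hx hpos
    · push Not at h2
      have h3 : ‖Def s x‖ ≤ ‖x‖ + ‖pert s x‖ := norm_add_le _ _
      have h4 := hs.bd x
      linarith [hB.1]
  · intro hy
    obtain ⟨x, hx⟩ := H.surjective y
    rw [hH] at hx
    subst hx
    refine ⟨x, ?_, rfl⟩
    rw [mem_ball_zero_iff]
    by_contra hcon
    push Not at hcon
    by_cases h2 : ‖x‖ ≤ 16 / 5
    · rw [Def_B s (by linarith) h2, norm_smul, Real.norm_eq_abs, abs_of_pos hpos, mul_comm] at hy
      have := lt_of_mul_lt_mul_right hy hpos.le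
      linarith
    · push Not at h2
      have h3 : ‖x‖ ≤ ‖Def s x‖ + ‖pert s x‖ := by
        have : x = Def s x - pert s x := by simp [Def]
        calc ‖x‖ = ‖Def s x - pert s x‖ := by rw [← this]
          _ ≤ _ := norm_sub_le _ _
      have h4 := hs.bd x
      linarith [hB.2]

lemma im_Om0 : Def s '' Om 0 = ball 0 (3 / 2 * lam (8 / 27) s) ∪ ball c (1 * lam (-1) s) := by
  rw [Om0_eq, image_union, im_ballA hs, im_ballC hs]

lemma im_Om1 : Def s '' Om 1 =
    ball 0 (3 * lam (1 / 27) s) \ closedBall 0 (3 / 2 * lam (8 / 27) s) := by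
  obtain ⟨H, hH⟩ := exists_homeo hs
  have hinj : Function.Injective (Def s) := by
    rw [← funext hH]; exact H.injective
  rw [Om1_eq, image_sdiff hinj, im_ballB hs, im_closedBallA hs]

end Images

/-- The volume of the union of the two balls. -/
lemma volume_two_balls {r t : ℝ} (hr : 0 < r) (ht : 0 < t) (hr2 : r < 2) (ht2 : t < 2) :
    volume (ball (0 : E) r ∪ ball c t) = ENNReal.ofReal (r ^ 3 + t ^ 3) * volume (ball (0 : E) 1) := by
  rw [measure_union _ measurableSet_ball, Measure.addHaar_ball _ _ hr.le,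
    Measure.addHaar_ball _ _ ht.le, finrank_euclideanSpace_fin, ← add_mul,
    ← ENNReal.ofReal_add (by positivity) (by positivity)]
  rw [Set.disjoint_left]
  intro x hx hx'
  rw [mem_ball_zero_iff] at hx
  rw [mem_ball_iff_norm] at hx'
  have := far hx'.le
  linarith

/-- The volume of the shell. -/
lemma volume_shell {r R : ℝ} (hr : 0 < r) (hR : r < R) :
    volume (ball (0 : E) R \ closedBall 0 r) =
      ENNReal.ofReal (R ^ 3 - r ^ 3) * volume (ball (0 : E) 1) := by
  have hsub : closedBall (0 : E) r ⊆ ball 0 R := closedBall_subset_ball hR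
  rw [measure_sdiff hsub measurableSet_closedBall.nullMeasurableSet
    (isCompact_closedBall _ _).measure_lt_top.ne, Measure.addHaar_ball _ _ (hr.trans hR).le,
    Measure.addHaar_closedBall _ _ hr.le, finrank_euclideanSpace_fin,
    ENNReal.ofReal_sub _ (by positivity), ENNReal.sub_mul]
  intro _ _
  exact measure_ball_lt_top.ne

lemma isCluster : IsCluster Om := by
  have hv : 0 < volume (ball (0 : E) 1) := measure_ball_pos _ _ one_pos
  have hv' : volume (ball (0 : E) 1) < ∞ := measure_ball_lt_top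
  refine ⟨isOpen_Om, ?_, ?_, ?_⟩
  · have h01 : Disjoint (Om 0) (Om 1) := by
      rw [Om0_eq, Om1_eq, Set.disjoint_left]
      rintro x (hx | hx) ⟨h1, h2⟩
      · exact h2 (ball_subset_closedBall hx)
      · rw [mem_ball_iff_norm] at hx
        rw [mem_ball_zero_iff] at h1
        have := far hx.le
        linarith
    intro i j hij
    fin_cases i <;> fin_cases j
    · exact absurd rfl hij
    · exact h01
    · exact h01.symm
    · exact absurd rfl hij
  · intro i
    fin_cases i
    · show 0 < volume (Om 0)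
      rw [Om0_eq, volume_two_balls (by norm_num) (by norm_num) (by norm_num) (by norm_num)]
      exact ENNReal.mul_pos (by norm_num) hv.ne'
    · show 0 < volume (Om 1)
      rw [Om1_eq, volume_shell (by norm_num) (by norm_num)]
      exact ENNReal.mul_pos (by norm_num) hv.ne'
  · intro i
    fin_cases i
    · show volume (Om 0) < ∞
      rw [Om0_eq, volume_two_balls (by norm_num) (by norm_num) (by norm_num) (by norm_num)]
      exact ENNReal.mul_lt_top ENNReal.ofReal_lt_top hv'
    · show volume (Om 1) < ∞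
      rw [Om1_eq, volume_shell (by norm_num) (by norm_num)]
      exact ENNReal.mul_lt_top ENNReal.ofReal_lt_top hv'

lemma volume_preserved {s : ℝ} (hs : Small s) (i : Fin 2) :
    volume (Def s '' Om i) = volume (Om i) := by
  have hA := abs_le.mp hs.lamA
  have hB := abs_le.mp hs.lamB
  have hC := abs_le.mp hs.lamC
  have pA := lam_pos (posA hs)
  have pB := lam_pos (posB hs)
  have pC := lam_pos (posC hs)
  fin_cases i
  · show volume (Def s '' Om 0) = volume (Om 0)
    rw [im_Om0 hs, volume_two_balls (by positivity) (by positivity) (by linarith) (by linarith),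
      Om0_eq, volume_two_balls (by norm_num) (by norm_num) (by norm_num) (by norm_num)]
    congr 2
    rw [mul_pow, mul_pow, lam_cube (posA hs), lam_cube (posC hs)]
    ring
  · show volume (Def s '' Om 1) = volume (Om 1)
    rw [im_Om1 hs, volume_shell (by positivity) (by linarith), Om1_eq,
      volume_shell (by norm_num) (by norm_num)]
    congr 2
    rw [mul_pow, mul_pow, lam_cube (posA hs), lam_cube (posB hs)]
    ring

/-- The area of the deformed cluster. -/
lemma area_Def {s : ℝ} (hs : Small s) : (area Om (Def s)).toReal =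
    (9 / 4 * (1 + (8 / 27) * s) ^ (2 / 3 : ℝ) + (1 + (-1) * s) ^ (2 / 3 : ℝ) +
      9 * (1 + (1 / 27) * s) ^ (2 / 3 : ℝ)) * (Pool.Agent.TH623.SphereArea.κ).toReal := by
  have pA := lam_pos (posA hs)
  have pB := lam_pos (posB hs)
  have pC := lam_pos (posC hs)
  have h1 : area Om (Def s) = μH[2] (Def s '' interface Om 0 1) +
      μH[2] (Def s '' interface Om 0 2) + μH[2] (Def s '' interface Om 1 2) := by
    simp [area, Fin.sum_univ_three]
  rw [h1, interface01, interface02, interface12, im_sphereA hs, im_sphereB hs, im_sphereC hs,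
    Pool.Agent.TH623.SphereArea.area_sphere _ _ (by positivity),
    Pool.Agent.TH623.SphereArea.area_sphere _ _ (by positivity),
    Pool.Agent.TH623.SphereArea.area_sphere _ _ (by positivity), ← add_mul, ← add_mul,
    ENNReal.toReal_mul, ← ENNReal.ofReal_add (by positivity) (by positivity),
    ← ENNReal.ofReal_add (by positivity) (by positivity),
    ENNReal.toReal_ofReal (by positivity)]
  congr 1
  rw [mul_pow, mul_pow, mul_pow, lam_sq (posA hs), lam_sq (posB hs), lam_sq (posC hs)]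
  ring


lemma Def_smooth {ε : ℝ} (h : ∀ s ∈ Ioo (-ε) ε, Small s) :
    ContDiffOn ℝ (⊤ : ℕ∞) (fun p : ℝ × E => Def p.1 p.2) (Ioo (-ε) ε ×ˢ univ) := by
  have hl : ∀ a : ℝ, (∀ s ∈ Ioo (-ε) ε, 1 + a * s ≠ 0) →
      ContDiffOn ℝ (⊤ : ℕ∞) (fun p : ℝ × E => lam a p.1) (Ioo (-ε) ε ×ˢ univ) := by
    intro a ha
    refine ContDiffOn.rpow_const_of_ne ?_ ?_
    · exact (contDiff_const.add (contDiff_const.mul contDiff_fst)).contDiffOn
    · rintro p ⟨hp, -⟩
      exact ha _ hp
  have hA := hl (8 / 27) fun s hs => (posA (h s hs)).ne'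
  have hB := hl (1 / 27) fun s hs => (posB (h s hs)).ne'
  have hC := hl (-1) fun s hs => (posC (h s hs)).ne'
  have g1 : ContDiffOn ℝ (⊤ : ℕ∞) (fun p : ℝ × E => G1 p.2) (Ioo (-ε) ε ×ˢ univ) :=
    (G1_contDiff.comp contDiff_snd).contDiffOn
  have g2 : ContDiffOn ℝ (⊤ : ℕ∞) (fun p : ℝ × E => G2 p.2) (Ioo (-ε) ε ×ˢ univ) :=
    (G2_contDiff.comp contDiff_snd).contDiffOn
  have g3 : ContDiffOn ℝ (⊤ : ℕ∞) (fun p : ℝ × E => G3 p.2) (Ioo (-ε) ε ×ˢ univ) :=
    (G3_contDiff.comp contDiff_snd).contDiffOn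
  have g0 : ContDiffOn ℝ (⊤ : ℕ∞) (fun p : ℝ × E => p.2) (Ioo (-ε) ε ×ˢ univ) :=
    contDiff_snd.contDiffOn
  exact g0.add ((((hA.sub hB).smul g1).add ((hB.sub contDiffOn_const).smul g2)).add
    ((hC.sub contDiffOn_const).smul g3))

lemma isDeformation {ε : ℝ} (h : ∀ s ∈ Ioo (-ε) ε, Small s) :
    IsVolumePreservingDeformation Om ε Def := by
  refine ⟨Def_smooth h, fun s hs => exists_inverse (h s hs), ?_, Def_zero,
    fun s hs i => volume_preserved (h s hs) i⟩
  refine ⟨closedBall 0 4 ∪ closedBall c 3,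
    (isCompact_closedBall _ _).union (isCompact_closedBall _ _), fun s _ x hx => ?_⟩
  simp only [mem_union, not_or, mem_closedBall_iff_norm, not_le, sub_zero] at hx
  exact Def_out s hx.1.le hx.2.le

lemma hasDerivAt_pow (a p s : ℝ) (h : 0 < 1 + a * s) :
    HasDerivAt (fun s => (1 + a * s) ^ p) (a * p * (1 + a * s) ^ (p - 1)) s := by
  have h1 : HasDerivAt (fun s : ℝ => 1 + a * s) a s := by
    simpa using ((hasDerivAt_id s).const_mul a).const_add 1
  exact h1.rpow_const (Or.inl h.ne')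

/-- The first variation vanishes and the second one is negative. -/
lemma variations {ε : ℝ} (h : ∀ s ∈ Ioo (-ε) ε, Small s) :
    HasVariations Om ε Def 0 (-(196 / 729) * (Pool.Agent.TH623.SphereArea.κ).toReal) := by
  set K := (Pool.Agent.TH623.SphereArea.κ).toReal with hK
  refine ⟨fun s => (9 / 4 * ((8 / 27) * (2 / 3) * (1 + (8 / 27) * s) ^ ((2 : ℝ) / 3 - 1)) +
    (-1) * (2 / 3) * (1 + (-1) * s) ^ ((2 : ℝ) / 3 - 1) +
    9 * ((1 / 27) * (2 / 3) * (1 + (1 / 27) * s) ^ ((2 : ℝ) / 3 - 1))) * K, ?_, ?_, ?_⟩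
  · intro s hs
    have hsm := h s hs
    have h1 := ((((hasDerivAt_pow (8 / 27) (2 / 3) s (posA hsm)).const_mul (9 / 4)).add
      (hasDerivAt_pow (-1) (2 / 3) s (posC hsm))).add
      ((hasDerivAt_pow (1 / 27) (2 / 3) s (posB hsm)).const_mul 9)).mul_const K
    refine h1.congr_of_eventuallyEq ?_
    filter_upwards [isOpen_Ioo.mem_nhds hs] with t ht
    exact area_Def (h t ht)
  · simp only [mul_zero, add_zero, Real.one_rpow]
    ring
  · have h0 : ∀ a : ℝ, (0 : ℝ) < 1 + a * 0 := fun a => by simp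
    have h1 := (((((hasDerivAt_pow (8 / 27) (2 / 3 - 1) 0 (h0 _)).const_mul
      ((8 / 27) * (2 / 3))).const_mul (9 / 4)).add
      ((hasDerivAt_pow (-1) (2 / 3 - 1) 0 (h0 _)).const_mul ((-1) * (2 / 3)))).add
      (((hasDerivAt_pow (1 / 27) (2 / 3 - 1) 0 (h0 _)).const_mul
        ((1 / 27) * (2 / 3))).const_mul 9)).mul_const K
    refine h1.congr_deriv ?_
    simp only [mul_zero, add_zero, Real.one_rpow]
    ring

lemma kappa_toReal_pos : 0 < (Pool.Agent.TH623.SphereArea.κ).toReal :=
  ENNReal.toReal_pos Pool.Agent.TH623.SphereArea.kappa_pos.ne'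
    Pool.Agent.TH623.SphereArea.kappa_lt_top.ne

/-- Q1 of MP_5bdae7_gt, answered no: there is a cluster of two cells in `ℝ³` whose interfaces are
three pairwise disjoint round spheres, which obeys Plateau's laws and is not stable. The radii
`r₀₁, r₁₂, r₀₂` of the interfaces and pressures `p₀, p₁` of the cells (`0` outside) satisfy
Laplace's law, so the cluster is in equilibrium, and along the destabilising volume-preserving
deformation the first variation of area vanishes while the second one is negative. -/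
theorem result : ∃ Ω : Fin 2 → Set E, IsCluster Ω ∧ SphericalInterfaces Ω ∧ PlateauLaws Ω ∧
    ¬ IsStable Ω ∧
    (∃ (a₀₁ a₁₂ a₀₂ : E) (r₀₁ r₁₂ r₀₂ p₀ p₁ : ℝ), 0 < r₀₁ ∧ 0 < r₁₂ ∧ 0 < r₀₂ ∧
      interface Ω 0 1 = sphere a₀₁ r₀₁ ∧ interface Ω 1 2 = sphere a₁₂ r₁₂ ∧
      interface Ω 0 2 = sphere a₀₂ r₀₂ ∧
      p₀ - p₁ = 2 / r₀₁ ∧ p₁ - 0 = 2 / r₁₂ ∧ p₀ - 0 = 2 / r₀₂) ∧
    ∃ (ε : ℝ) (Φ : ℝ → E → E) (a'' : ℝ), 0 < ε ∧ IsVolumePreservingDeformation Ω ε Φ ∧
      HasVariations Ω ε Φ 0 a'' ∧ a'' < 0 := by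
  obtain ⟨ε, hε, h⟩ := exists_small
  have hneg : -(196 / 729) * (Pool.Agent.TH623.SphereArea.κ).toReal < 0 := by
    have := kappa_toReal_pos
    linarith
  refine ⟨Om, isCluster, spherical, plateau, ?_, ?_, ε, Def, _, hε, isDeformation h,
    variations h, hneg⟩
  · intro hst
    have := hst ε Def _ _ hε (isDeformation h) (variations h)
    linarith
  · exact ⟨0, 0, c, 3 / 2, 3, 1, 2, 2 / 3, by norm_num, by norm_num, by norm_num, interface01,
      interface12, interface02, by norm_num, by norm_num, by norm_num⟩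

end Pool.Agent.Results.MP_5bdae7_gt.VolumeExchange
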